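import Pool.Agent.U939.KL.Lp

/-!
# Random signings of vectors of `ℓ_p` norm at most one
-/

set_option autoImplicit false

namespace Pool.Agent.U939.KL

open Finset Real

/-- The `i`-th coordinate of `∑ j, (x j - x₀ j) v_j`, in absolute value. -/
def coord {d n : ℕ} (v : Fin n → Fin d → ℝ) (x₀ x : Fin n → ℝ) (i : Fin d) : ℝ :=
  |∑ j, (x j - x₀ j) * v j i|

section build

variable {d n : ℕ} (v : Fin n → Fin d → ℝ) (p X : ℝ) (δ : Fin d → ℝ)

open Classical in
/-- The scale of the second row. -/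
noncomputable def tt (i : Fin d) : ℝ := if δ i < thr p X then δ i ^ (-p) else 1

open Classical in
/-- The inverse of the factor of the second row. -/
noncomputable def cc (i : Fin d) : ℝ := if δ i < thr p X then δ i else thr p X ^ (1 - p / 2)

open Classical in
/-- The rows. -/
noncomputable def av (r : Fin (d * 2)) (j : Fin n) : ℝ :=
  if (finProdFinEquiv.symm r).2 = 0 then
    (if thr p X < |v j (finProdFinEquiv.symm r).1| then v j (finProdFinEquiv.symm r).1 else 0)
  else
    (if thr p X < |v j (finProdFinEquiv.symm r).1| then 0 else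
      (cc p X δ (finProdFinEquiv.symm r).1)⁻¹ * v j (finProdFinEquiv.symm r).1)

open Classical in
/-- The energies. -/
noncomputable def bv (r : Fin (d * 2)) (j : Fin n) : ℝ :=
  if (finProdFinEquiv.symm r).2 = 0 then
    (if thr p X < |v j (finProdFinEquiv.symm r).1| then |v j (finProdFinEquiv.symm r).1| ^ p else 0)
  else
    (if thr p X < |v j (finProdFinEquiv.symm r).1| then 0 else
      tt p X δ (finProdFinEquiv.symm r).1 * |v j (finProdFinEquiv.symm r).1| ^ p)

open Classical in
/-- The scales. -/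
noncomputable def tv (r : Fin (d * 2)) : ℝ :=
  if (finProdFinEquiv.symm r).2 = 0 then 1 else tt p X δ (finProdFinEquiv.symm r).1

variable {v p X δ}

theorem tt_ge (hp1 : 1 ≤ p) (hδ0 : ∀ i, 0 < δ i) (hδ1 : ∀ i, δ i ≤ 1) (i : Fin d) :
    1 ≤ tt p X δ i := by
  unfold tt
  split_ifs
  · exact Real.one_le_rpow_of_pos_of_le_one_of_nonpos (hδ0 i) (hδ1 i) (by linarith)
  · exact le_rfl

theorem cc_pos (hX : 1 ≤ X) (hδ0 : ∀ i, 0 < δ i) (i : Fin d) : 0 < cc p X δ i := by
  unfold cc
  split_ifs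
  · exact hδ0 i
  · exact Real.rpow_pos_of_pos (thr_pos hX) _

theorem cc_abs (hp1 : 1 ≤ p) (hX : 1 ≤ X) (hδ0 : ∀ i, 0 < δ i)
    (i : Fin d) (x : ℝ) (hx : |x| ≤ δ i) (hx2 : |x| ≤ thr p X) :
    |(cc p X δ i)⁻¹ * x| ≤ 1 := by
  unfold cc
  split_ifs with h
  · rw [abs_mul, abs_of_pos (inv_pos.mpr (hδ0 i)), inv_mul_le_iff₀ (hδ0 i), mul_one]
    exact hx
  · rw [← Real.rpow_neg (thr_pos hX).le]
    exact small_abs hp1 (thr_pos hX) (thr_le_one hp1 hX) hx2

theorem cc_sq (hp1 : 1 ≤ p) (hp2 : p ≤ 2) (hX : 1 ≤ X) (hδ0 : ∀ i, 0 < δ i)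
    (i : Fin d) (x : ℝ) (hx : |x| ≤ δ i) (hx2 : |x| ≤ thr p X) :
    ((cc p X δ i)⁻¹ * x) ^ 2 ≤ tt p X δ i * |x| ^ p := by
  by_cases hx0 : x = 0
  · subst hx0
    rw [mul_zero, abs_zero, Real.zero_rpow (by linarith)]
    norm_num
  unfold cc tt
  split_ifs with h
  · have h1 : |(δ i)⁻¹ * x| ≤ 1 := by
      rw [abs_mul, abs_of_pos (inv_pos.mpr (hδ0 i)), inv_mul_le_iff₀ (hδ0 i), mul_one]
      exact hx
    have h2 : (δ i)⁻¹ * x ≠ 0 := mul_ne_zero (inv_ne_zero (hδ0 i).ne') hx0
    refine (sq_le_rpow hp2 h1 h2).trans (le_of_eq ?_)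
    rw [abs_mul, abs_of_pos (inv_pos.mpr (hδ0 i)),
      Real.mul_rpow (inv_pos.mpr (hδ0 i)).le (abs_nonneg x), Real.inv_rpow (hδ0 i).le,
      Real.rpow_neg (hδ0 i).le]
  · rw [one_mul, ← Real.rpow_neg (thr_pos hX).le]
    exact small_sq hp2 (thr_pos hX) hx2 hx0

theorem av_fst (i : Fin d) (j : Fin n) :
    av v p X δ (finProdFinEquiv (i, 0)) j = if thr p X < |v j i| then v j i else 0 := by
  unfold av
  rw [Equiv.symm_apply_apply, if_pos rfl]

theorem av_snd (i : Fin d) (j : Fin n) :
    av v p X δ (finProdFinEquiv (i, 1)) j =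
      if thr p X < |v j i| then 0 else (cc p X δ i)⁻¹ * v j i := by
  unfold av
  rw [Equiv.symm_apply_apply, if_neg (by simp)]

theorem bv_fst (i : Fin d) (j : Fin n) :
    bv v p X δ (finProdFinEquiv (i, 0)) j = if thr p X < |v j i| then |v j i| ^ p else 0 := by
  unfold bv
  rw [Equiv.symm_apply_apply, if_pos rfl]

theorem bv_snd (i : Fin d) (j : Fin n) :
    bv v p X δ (finProdFinEquiv (i, 1)) j =
      if thr p X < |v j i| then 0 else tt p X δ i * |v j i| ^ p := by
  unfold bv
  rw [Equiv.symm_apply_apply, if_neg (by simp)]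

theorem tv_fst (i : Fin d) : tv p X δ (finProdFinEquiv (i, (0 : Fin 2))) = 1 := by
  unfold tv
  rw [Equiv.symm_apply_apply, if_pos rfl]

theorem tv_snd (i : Fin d) : tv p X δ (finProdFinEquiv (i, (1 : Fin 2))) = tt p X δ i := by
  unfold tv
  rw [Equiv.symm_apply_apply, if_neg (by simp)]

/-- Every row is a first or a second row. -/
theorem row_cases (P : Fin (d * 2) → Prop) (h0 : ∀ i, P (finProdFinEquiv (i, 0)))
    (h1 : ∀ i, P (finProdFinEquiv (i, 1))) (r : Fin (d * 2)) : P r := by
  have h2 : r = finProdFinEquiv (finProdFinEquiv.symm r) := (Equiv.apply_symm_apply _ _).symm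
  rw [h2]
  obtain ⟨i, b⟩ := finProdFinEquiv.symm r
  rcases Fin.exists_fin_two.mp ⟨b, rfl⟩ with h | h
  · rw [h]; exact h0 i
  · rw [h]; exact h1 i

end build

/-- **Random signings of vectors of `ℓ_p` norm at most one.** -/
theorem lp_random {d n : ℕ} (p : ℝ) (hp1 : 1 ≤ p) (hp2 : p ≤ 2) (v : Fin n → Fin d → ℝ)
    (hv : ∀ j, ∑ i, |v j i| ^ p ≤ 1) (δ : Fin d → ℝ) (hδ0 : ∀ i, 0 < δ i) (hδ1 : ∀ i, δ i ≤ 1)
    (hδ : ∀ j i, |v j i| ≤ δ i) (x₀ : Fin n → ℝ) (hx₀ : ∀ j, |x₀ j| ≤ 1) (X : ℝ) (hX : 1 ≤ X) :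
    ∃ (K : ℕ) (w : Fin K → ℝ) (x : Fin K → Fin n → ℝ),
      (∀ k, 0 ≤ w k) ∧ ∑ k, w k = 1 ∧ (∀ k j, x k j = 1 ∨ x k j = -1) ∧
      (∀ (i : Fin d) (q : ℕ), 1 ≤ q →
        ∑ k, (if q * (3000040 * lpb p (δ i) X) < coord v x₀ (x k) i then w k else 0) ≤
          Real.exp (-(q * X))) ∧
      (∀ k i, coord v x₀ (x k) i ≤
        3000040 * lpb p (δ i) X * (2 + Real.log (min d n : ℕ) / X)) := by
  classical
  have hp0 : p ≠ 0 := by linarith
  have hv1 : ∀ j i, |v j i| ≤ 1 := fun j i => (hδ j i).trans (hδ1 i)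
  have hvp : ∀ j i, 0 ≤ |v j i| ^ p := fun j i => Real.rpow_nonneg (abs_nonneg _) _
  have hθ := thr_pos (p := p) hX
  have htv : ∀ r, 1 ≤ tv p X δ r := by
    intro r
    refine row_cases (fun r => 1 ≤ tv p X δ r) (fun i => ?_) (fun i => ?_) r
    · rw [tv_fst]
    · rw [tv_snd]; exact tt_ge hp1 hδ0 hδ1 i
  obtain ⟨K, w, x, h1, h2, h3, h4, h5, h6⟩ := main (av v p X δ) (bv v p X δ) (tv p X δ) htv
    (by
      intro r j
      refine row_cases (fun r => |av v p X δ r j| ≤ 1) (fun i => ?_) (fun i => ?_) r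
      · rw [av_fst]
        split_ifs
        · exact hv1 j i
        · simp
      · rw [av_snd]
        split_ifs with h
        · simp
        · exact cc_abs hp1 hX hδ0 i _ (hδ j i) (not_lt.mp h))
    (by
      intro r j
      refine row_cases (fun r => av v p X δ r j ^ 2 ≤ bv v p X δ r j) (fun i => ?_)
        (fun i => ?_) r
      · rw [av_fst, bv_fst]
        split_ifs with h
        · refine sq_le_rpow hp2 (hv1 j i) ?_
          intro h0
          rw [h0, abs_zero] at h
          linarith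
        · norm_num
      · rw [av_snd, bv_snd]
        split_ifs with h
        · norm_num
        · exact cc_sq hp1 hp2 hX hδ0 i _ (hδ j i) (not_lt.mp h))
    (by
      intro r j
      refine row_cases (fun r => av v p X δ r j = 0 → bv v p X δ r j = 0) (fun i => ?_)
        (fun i => ?_) r
      · rw [av_fst, bv_fst]
        intro h
        split_ifs at h ⊢ with h'
        · rw [h, abs_zero, Real.zero_rpow hp0]
        · rfl
      · rw [av_snd, bv_snd]
        intro h
        split_ifs at h ⊢ with h'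
        · rfl
        · have h7 : v j i = 0 := by
            rcases mul_eq_zero.mp h with h8 | h8
            · exact absurd (inv_eq_zero.mp h8) (cc_pos hX hδ0 i).ne'
            · exact h8
          rw [h7, abs_zero, Real.zero_rpow hp0, mul_zero])
    (by
      intro j
      rw [← Equiv.sum_comp finProdFinEquiv, Fintype.sum_prod_type]
      refine le_trans (le_of_eq (Finset.sum_congr rfl fun i _ => ?_)) (hv j)
      rw [Fin.sum_univ_two, bv_fst, bv_snd, tv_fst, tv_snd]
      have h7 : 0 < tt p X δ i := by linarith [tt_ge (X := X) hp1 hδ0 hδ1 i]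
      split_ifs
      · simp
      · rw [mul_div_cancel_left₀ _ h7.ne']; simp)
    x₀ hx₀ X hX
  -- splitting of a coordinate
  have hsplit : ∀ (y : Fin n → ℝ) (i : Fin d), coord v x₀ y i ≤
      rowSum (av v p X δ) x₀ y (finProdFinEquiv (i, 0))
        + cc p X δ i * rowSum (av v p X δ) x₀ y (finProdFinEquiv (i, 1)) := by
    intro y i
    have hc := cc_pos (p := p) hX hδ0 i
    unfold coord rowSum
    have e : ∑ j, (y j - x₀ j) * v j i
        = ∑ j, av v p X δ (finProdFinEquiv (i, 0)) j * (y j - x₀ j)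
          + cc p X δ i * ∑ j, av v p X δ (finProdFinEquiv (i, 1)) j * (y j - x₀ j) := by
      rw [Finset.mul_sum, ← Finset.sum_add_distrib]
      refine Finset.sum_congr rfl fun j _ => ?_
      rw [av_fst, av_snd]
      split_ifs
      · ring
      · field_simp
        ring
    rw [e]
    refine (abs_add_le _ _).trans ?_
    rw [abs_mul, abs_of_pos hc]
  -- the first rows
  have hlin : ∀ k i, rowSum (av v p X δ) x₀ (x k) (finProdFinEquiv (i, 0)) ≤
      40 * lpb p (δ i) X := by
    intro k i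
    by_cases hcase : δ i < thr p X
    · have h7 := (h6 k (finProdFinEquiv (i, 0)) 0 (by
        intro F _
        refine le_of_eq (Finset.sum_eq_zero fun j _ => ?_)
        rw [av_fst, if_neg (not_lt.mpr ((hδ j i).trans hcase.le)), abs_zero])).2
      have := lpb_nonneg (p := p) hX (hδ0 i) (hδ1 i)
      linarith
    · push Not at hcase
      have h7 := (h6 k (finProdFinEquiv (i, 0)) (10 * X ^ ((1 - 1 / p) / 2)) (by
        intro F hF
        rw [tv_fst, mul_one] at hF
        rw [← thr_large hp1 hX]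
        calc ∑ j ∈ F, |av v p X δ (finProdFinEquiv (i, 0)) j|
            ≤ ∑ j ∈ F, thr p X ^ (1 - p) * bv v p X δ (finProdFinEquiv (i, 0)) j := by
              refine Finset.sum_le_sum fun j _ => ?_
              rw [av_fst, bv_fst]
              split_ifs with h
              · exact abs_le_rpow hp1 hθ h.le
              · simp
          _ = thr p X ^ (1 - p) * ∑ j ∈ F, bv v p X δ (finProdFinEquiv (i, 0)) j := by
              rw [Finset.mul_sum]
          _ ≤ thr p X ^ (1 - p) * 10 :=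
              mul_le_mul_of_nonneg_left hF (Real.rpow_nonneg hθ.le _)
          _ = _ := by ring)).2
      rw [lpb_of_large hp1 hX (hδ0 i) (hδ1 i) hcase]
      linarith
  -- the cost of the second rows
  have hcost : ∀ i, cc p X δ i * bnd (tv p X δ (finProdFinEquiv (i, 1))) X ≤
      3000000 * lpb p (δ i) X := by
    intro i
    rw [tv_snd]
    by_cases hcase : δ i < thr p X
    · have e1 : cc p X δ i = δ i := by unfold cc; rw [if_pos hcase]
      have e2 : tt p X δ i = δ i ^ (-p) := by unfold tt; rw [if_pos hcase]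
      rw [e1, e2]
      exact cost_small hp1 hp2 hX (hδ0 i) (hδ1 i) hcase.le
    · have e1 : cc p X δ i = thr p X ^ (1 - p / 2) := by unfold cc; rw [if_neg hcase]
      have e2 : tt p X δ i = 1 := by unfold tt; rw [if_neg hcase]
      push Not at hcase
      rw [e1, e2, lpb_of_large hp1 hX (hδ0 i) (hδ1 i) hcase, ← thr_small hp1 hX]
      have h7 : 0 ≤ thr p X ^ (1 - p / 2) := Real.rpow_nonneg hθ.le _
      have h8 : 0 ≤ X ^ (1 / 4 : ℝ) := Real.rpow_nonneg (by linarith) _
      calc thr p X ^ (1 - p / 2) * bnd 1 X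
          ≤ thr p X ^ (1 - p / 2) * (42500 * Real.sqrt 1 * X ^ (1 / 4 : ℝ)) :=
            mul_le_mul_of_nonneg_left (min_le_right _ _) h7
        _ = 42500 * (thr p X ^ (1 - p / 2) * X ^ (1 / 4 : ℝ)) := by
            rw [Real.sqrt_one]; ring
        _ ≤ _ := by
            have := mul_nonneg h7 h8
            linarith
  refine ⟨K, w, x, h1, h2, h3, fun i q hq => ?_, fun k i => ?_⟩
  · refine le_trans (Finset.sum_le_sum fun k _ => ?_) (h4 (finProdFinEquiv (i, 1)) q hq)
    have hq1 : (1 : ℝ) ≤ q := by exact_mod_cast hq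
    have hb := lpb_nonneg (p := p) hX (hδ0 i) (hδ1 i)
    have hc := cc_pos (p := p) hX hδ0 i
    by_cases h9 : (q : ℝ) * (3000040 * lpb p (δ i) X) < coord v x₀ (x k) i
    · rw [if_pos h9, if_pos]
      by_contra hcon
      push Not at hcon
      have h10 := hsplit (x k) i
      have h11 := hlin k i
      have h12 := mul_le_mul_of_nonneg_left hcon hc.le
      have h13 := hcost i
      have h14 : (q : ℝ) * (cc p X δ i * bnd (tv p X δ (finProdFinEquiv (i, 1))) X) ≤
          q * (3000000 * lpb p (δ i) X) := mul_le_mul_of_nonneg_left h13 (by linarith)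
      nlinarith
    · rw [if_neg h9]
      split_ifs
      · exact h1 k
      · exact le_rfl
  · have h7 := h5 k (finProdFinEquiv (i, 1))
    have hb := lpb_nonneg (p := p) hX (hδ0 i) (hδ1 i)
    have hc := cc_pos (p := p) hX hδ0 i
    have h10 := hsplit (x k) i
    have h11 := hlin k i
    have h12 := mul_le_mul_of_nonneg_left h7 hc.le
    have h13 := hcost i
    have hX0 : 0 < X := by linarith
    have hl0 : 0 ≤ Real.log ((min (d * 2) n : ℕ) : ℝ) := Real.log_natCast_nonneg _
    have hl1 : Real.log ((min (d * 2) n : ℕ) : ℝ) ≤ 1 + Real.log ((min d n : ℕ) : ℝ) := by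
      rcases Nat.eq_zero_or_pos (min d n) with h0 | h0
      · have h14 : min (d * 2) n = 0 := by omega
        rw [h0, h14, Nat.cast_zero, Real.log_zero]; norm_num
      · have h14 : min (d * 2) n ≤ 2 * min d n := by omega
        have h15 : ((min (d * 2) n : ℕ) : ℝ) ≤ 2 * ((min d n : ℕ) : ℝ) := by exact_mod_cast h14
        have h16 : (0 : ℝ) < ((min (d * 2) n : ℕ) : ℝ) := by
          have : 0 < min (d * 2) n := by omega
          exact_mod_cast this
        have h17 : (0 : ℝ) < ((min d n : ℕ) : ℝ) := by exact_mod_cast h0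
        have h18 := Real.log_le_log h16 h15
        rw [Real.log_mul (by norm_num) h17.ne'] at h18
        have := Real.log_two_lt_d9
        linarith
    have h14 : 1 + Real.log ((min (d * 2) n : ℕ) : ℝ) / X ≤
        2 + Real.log ((min d n : ℕ) : ℝ) / X := by
      have h15 : Real.log ((min (d * 2) n : ℕ) : ℝ) / X ≤
          (1 + Real.log ((min d n : ℕ) : ℝ)) / X := div_le_div_of_nonneg_right hl1 hX0.le
      have h16 : (1 : ℝ) / X ≤ 1 := by rw [div_le_one hX0]; exact hX
      rw [add_div] at h15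
      linarith
    have h15 : 0 ≤ Real.log ((min (d * 2) n : ℕ) : ℝ) / X := div_nonneg hl0 hX0.le
    have h16 : cc p X δ i * (bnd (tv p X δ (finProdFinEquiv (i, 1))) X *
        (1 + Real.log ((min (d * 2) n : ℕ) : ℝ) / X)) ≤
        3000000 * lpb p (δ i) X * (2 + Real.log ((min d n : ℕ) : ℝ) / X) := by
      rw [← mul_assoc]
      exact mul_le_mul h13 h14 (by linarith) (by positivity)
    have h17 : (1 : ℝ) ≤ 2 + Real.log ((min d n : ℕ) : ℝ) / X := by
      have h18 : 0 ≤ Real.log ((min d n : ℕ) : ℝ) / X :=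
        div_nonneg (Real.log_natCast_nonneg _) hX0.le
      linarith
    nlinarith

end Pool.Agent.U939.KL
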