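import Pool.Agent.U939.KL.Dist

/-!
# The distribution theorem with the parameter `X = log (1 / ε)`
-/

set_option autoImplicit false

namespace Pool.Agent.U939.KL

open Finset Real

open Pool.Agent.N243 (bd)

/-- The bound for a row of scale `t`. -/
noncomputable def bnd (t X : ℝ) : ℝ :=
  min (3120 * Real.sqrt t + 832000 * Real.sqrt X * (1 + Real.log t) ^ (3 / 2 : ℝ))
    (42500 * Real.sqrt t * X ^ (1 / 4 : ℝ))

/-- The `i`-th row sum of `a` at `x - x₀`, in absolute value. -/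
def rowSum {m n : ℕ} (a : Fin m → Fin n → ℝ) (x₀ x : Fin n → ℝ) (i : Fin m) : ℝ :=
  |∑ j, a i j * (x j - x₀ j)|

theorem main {m n : ℕ} (a bb : Fin m → Fin n → ℝ) (t : Fin m → ℝ) (ht : ∀ i, 1 ≤ t i)
    (a1 : ∀ i j, |a i j| ≤ 1) (abb : ∀ i j, a i j ^ 2 ≤ bb i j)
    (bb0 : ∀ i j, a i j = 0 → bb i j = 0)
    (col : ∀ j, ∑ i, bb i j / t i ≤ 1) (x₀ : Fin n → ℝ) (hx₀ : ∀ j, |x₀ j| ≤ 1)
    (X : ℝ) (hX : 1 ≤ X) :
    ∃ (K : ℕ) (w : Fin K → ℝ) (x : Fin K → Fin n → ℝ),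
      (∀ k, 0 ≤ w k) ∧ ∑ k, w k = 1 ∧ (∀ k j, x k j = 1 ∨ x k j = -1) ∧
      (∀ (i : Fin m) (p : ℕ), 1 ≤ p →
        ∑ k, (if p * bnd (t i) X < rowSum a x₀ (x k) i then w k else 0) ≤ Real.exp (-(p * X))) ∧
      (∀ k i, rowSum a x₀ (x k) i ≤ bnd (t i) X * (1 + Real.log (min m n : ℕ) / X)) ∧
      (∀ k i κ, LinK a bb t i κ → rowSum a x₀ (x k) i ≤ 2 * κ + bnd (t i) X ∧
        rowSum a x₀ (x k) i ≤ 4 * κ) := by
  classical
  set ε : ℝ := Real.exp (-X) with hε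
  have hε0 : 0 < ε := Real.exp_pos _
  have hε1 : ε ≤ 1 / 2 := by
    have h1 : ε ≤ Real.exp (-1) := by
      rw [hε]
      apply Real.exp_le_exp.mpr
      linarith
    refine h1.trans ?_
    rw [Real.exp_neg, ← one_div, div_le_div_iff₀ (Real.exp_pos 1) (by norm_num)]
    have := Real.exp_one_gt_d9
    linarith
  have hlogε : Real.log (1 / ε) = X := by
    rw [hε, one_div, ← Real.exp_neg, neg_neg, Real.log_exp]
  have hbd : ∀ t, bd t ε = bnd t X := by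
    intro t
    unfold Pool.Agent.N243.bd bnd
    rw [hlogε]
  obtain ⟨K, w, x, hw, hw1, hx, hp⟩ :=
    distribution a bb t ht a1 abb bb0 col x₀ hx₀ ε hε0 hε1
  refine ⟨K, w, x, hw, hw1, fun k j => (hx k).1 j, fun i p hp1 => ?_, fun k i => ?_,
    fun k i κ hκ => ?_⟩
  · have h1 := hp i p hp1
    have h2 : ε ^ p = Real.exp (-(p * X)) := by
      rw [hε, ← Real.exp_nat_mul]
      congr 1
      ring
    rw [h2, hbd, Finset.sum_filter] at h1
    exact h1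
  · have h1 := (hx k).2.1 i
    rw [hlogε, hbd] at h1
    exact h1
  · have h1 := (hx k).2.2 i κ hκ
    rw [hbd] at h1
    exact h1

theorem bnd_nonneg {t X : ℝ} (ht : 1 ≤ t) (hX : 1 ≤ X) : 0 ≤ bnd t X := by
  have hlog : 0 ≤ Real.log t := Real.log_nonneg ht
  unfold bnd
  apply le_min <;> positivity

end Pool.Agent.U939.KL
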