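import Pool.Agent.U939.KL.Levels
import Pool.Agent.N243.Dist

/-!
# Distributions on signings: every row with its own scale, all levels, and linear rows
-/

namespace Pool.Agent.U939.KL

open Finset Real H167FK

open Pool.Agent.N243 (cst cst_nonneg bd exists_params cst_le phases_le bd_ge_one)

variable {m n : ℕ}

/-- What every signing of the distribution satisfies: signs, a bound for all rows, and bounds
for the rows whose mass is small if their energy is small. -/
def Sure (a bb : Fin m → Fin n → ℝ) (x0 : Fin n → ℝ) (t : Fin m → ℝ) (ε : ℝ) (x : Fin n → ℝ) :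
    Prop :=
  (∀ j, x j = 1 ∨ x j = -1) ∧
  (∀ i, |∑ j, a i j * (x j - x0 j)| ≤
    bd (t i) ε * (1 + Real.log ((min m n : ℕ) : ℝ) / Real.log (1 / ε))) ∧
  (∀ i K, LinK a bb t i K → |∑ j, a i j * (x j - x0 j)| ≤ 2 * K + bd (t i) ε ∧
    |∑ j, a i j * (x j - x0 j)| ≤ 4 * K)

/-- **Weights on the rows, all levels.** -/
theorem weighted (a bb : Fin m → Fin n → ℝ) (t : Fin m → ℝ) (ht : ∀ i, 1 ≤ t i)
    (a1 : ∀ i j, |a i j| ≤ 1) (abb : ∀ i j, a i j ^ 2 ≤ bb i j)
    (bb0 : ∀ i j, a i j = 0 → bb i j = 0)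
    (col : ∀ j, ∑ i, bb i j / t i ≤ 1) (x0 : Fin n → ℝ) (hx0 : ∀ j, |x0 j| ≤ 1)
    (ε : ℝ) (h0 : 0 < ε) (h1 : ε ≤ 1 / 2) (J : ℕ) (q : Fin (J + 1) → Fin m → ℝ)
    (hq0 : ∀ p i, 0 ≤ q p i) :
    ∃ x : Fin n → ℝ, Sure a bb x0 t ε x ∧ ∀ p : Fin (J + 1),
      ∑ i, (if ((p : ℕ) + 1 : ℕ) * bd (t i) ε < |∑ j, a i j * (x j - x0 j)| then q p i else 0) ≤
        ε ^ ((p : ℕ) + 1) * ∑ i, q p i := by
  classical
  obtain ⟨M, L, s, hM, hL, hs, hsL, hexp, hR, hL2, hMε, hM256⟩ := Pool.Agent.N243.exists_params ε h0 h1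
  have hc := fun i => cst_le (t i) ε L (ht i) hL hL2
  have hc0 : ∀ i, 0 ≤ cst (t i) L := fun i => cst_nonneg (ht i)
  have hbd := fun i => bd_ge_one (t i) ε (ht i) h0 h1
  obtain ⟨x, hx1, hx2, hx3, hx4⟩ := levels a bb t ht a1 abb bb0 col L hL s hs hsL M hM hexp (by linarith)
    x0 hx0 J q hq0
  refine ⟨x, ⟨fun j => eq_or_eq_neg_of_abs_eq (hx1 j), fun i => ?_, fun i K hK => ?_⟩,
    fun p => ?_⟩
  · refine (hx2 i).trans ?_
    have h3 := phases_le (min m n) M ε h0 h1 (by omega) hMε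
    have h4 : (0 : ℝ) ≤ ((Nat.log M (min m n) : ℕ) : ℝ) := Nat.cast_nonneg _
    have hci := hc i
    have hci0 := hc0 i
    have hbi := hbd i
    have h5 : cst (t i) L * ((Nat.log M (min m n) : ℕ) + 2) ≤
        bd (t i) ε * (1 + ((Nat.log M (min m n) : ℕ) : ℝ)) := by nlinarith
    refine h5.trans (mul_le_mul_of_nonneg_left ?_ (by linarith))
    linarith
  · have h5 := hx3 i K hK
    have hci := hc i
    have hci0 := hc0 i
    exact ⟨by linarith [h5.1], h5.2⟩
  · have hM0 : (0 : ℝ) < M := by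
      have : 0 < M := by omega
      exact_mod_cast this
    have hq : 0 ≤ ∑ i, q p i := Finset.sum_nonneg fun i _ => hq0 p i
    have h2 : (256 / (M : ℝ)) ^ ((p : ℕ) + 1) ≤ ε ^ ((p : ℕ) + 1) :=
      pow_le_pow_left₀ (by positivity) hM256 _
    have h3 : 2 * (344064 * s ^ 4 / (M : ℝ) ^ 2 * (256 / (M : ℝ)) ^ ((p : ℕ) + 1)) ≤
        ε ^ ((p : ℕ) + 1) := by
      have h4 : 0 < (256 / (M : ℝ)) ^ ((p : ℕ) + 1) := by positivity
      have h5 : 344064 * s ^ 4 / (M : ℝ) ^ 2 ≤ 1 / 2 := by linarith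
      nlinarith
    refine le_trans (Finset.sum_le_sum fun i _ => ?_) ((hx4 p).trans
      (mul_le_mul_of_nonneg_right h3 hq))
    have h6 : cst (t i) L * (4 + 2 * ((p : ℕ) + 1 : ℕ)) ≤ ((p : ℕ) + 1 : ℕ) * bd (t i) ε := by
      have h7 : (0 : ℝ) ≤ ((p : ℕ) : ℝ) := Nat.cast_nonneg _
      have hci := hc i
      have hci0 := hc0 i
      have hbi := hbd i
      push_cast
      nlinarith
    by_cases h8 : ((p : ℕ) + 1 : ℕ) * bd (t i) ε < |∑ j, a i j * (x j - x0 j)|
    · rw [if_pos h8, if_pos (h6.trans_lt h8)]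
    · rw [if_neg h8]
      split_ifs
      · exact hq0 _ _
      · exact le_rfl

/-- **Distributions on signings, all levels.** -/
theorem distribution (a bb : Fin m → Fin n → ℝ) (t : Fin m → ℝ) (ht : ∀ i, 1 ≤ t i)
    (a1 : ∀ i j, |a i j| ≤ 1) (abb : ∀ i j, a i j ^ 2 ≤ bb i j)
    (bb0 : ∀ i j, a i j = 0 → bb i j = 0)
    (col : ∀ j, ∑ i, bb i j / t i ≤ 1) (x0 : Fin n → ℝ) (hx0 : ∀ j, |x0 j| ≤ 1)
    (ε : ℝ) (h0 : 0 < ε) (h1 : ε ≤ 1 / 2) :
    ∃ (K : ℕ) (w : Fin K → ℝ) (x : Fin K → Fin n → ℝ),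
      (∀ k, 0 ≤ w k) ∧ ∑ k, w k = 1 ∧ (∀ k, Sure a bb x0 t ε (x k)) ∧
      ∀ (i : Fin m) (p : ℕ), 1 ≤ p → ∑ k ∈ Finset.univ.filter
        (fun k => p * bd (t i) ε < |∑ j, a i j * (x k j - x0 j)|), w k ≤ ε ^ p := by
  classical
  set J : ℕ := 2 * n with hJ
  have hbd := fun i => bd_ge_one (t i) ε (ht i) h0 h1
  let f : Fin ((J + 1) * m) ≃ Fin (J + 1) × Fin m := finProdFinEquiv.symm
  let pat : (Fin n → ℝ) → (Fin ((J + 1) * m) → ℝ) := fun x r =>
    if (((f r).1 : ℕ) + 1 : ℕ) * bd (t (f r).2) ε < |∑ j, a (f r).2 j * (x j - x0 j)|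
    then (1 / ε) ^ (((f r).1 : ℕ) + 1) else 0
  have hsign : {x : Fin n → ℝ | ∀ j, x j = 1 ∨ x j = -1}.Finite := by
    have h2 : {x : Fin n → ℝ | ∀ j, x j = 1 ∨ x j = -1} ⊆
        Set.pi Set.univ fun _ => ({1, -1} : Set ℝ) := by
      intro x hx j _
      exact hx j
    exact (Set.Finite.pi' fun _ => Set.toFinite ({1, -1} : Set ℝ)).subset
      (fun x hx j => h2 hx j (Set.mem_univ j))
  have hpatfin : (pat '' {x | Sure a bb x0 t ε x}).Finite :=
    (hsign.subset fun x hx => hx.1).image _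
  set Z : Finset (Fin ((J + 1) * m) → ℝ) := hpatfin.toFinset with hZ
  have hZmem : ∀ z ∈ Z, ∃ x, Sure a bb x0 t ε x ∧ pat x = z := by
    intro z hz
    rw [hZ, Set.Finite.mem_toFinset] at hz
    exact hz
  obtain ⟨w, hw0, hw1, hw2⟩ := H167FK.minimax Z 1 (by
    intro q hq
    obtain ⟨x, hx1, hx2⟩ := weighted a bb t ht a1 abb bb0 col x0 hx0 ε h0 h1 J
      (fun p i => q (f.symm (p, i)) * (1 / ε) ^ ((p : ℕ) + 1))
      (fun p i => mul_nonneg (hq _) (by positivity))
    refine ⟨pat x, ?_, ?_⟩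
    · rw [hZ, Set.Finite.mem_toFinset]
      exact ⟨x, hx1, rfl⟩
    · rw [one_mul, ← Equiv.sum_comp f.symm (fun r => q r * pat x r), ← Equiv.sum_comp f.symm q,
        Fintype.sum_prod_type, Fintype.sum_prod_type]
      refine Finset.sum_le_sum fun p _ => ?_
      have h2 := hx2 p
      have h3 : ε ^ ((p : ℕ) + 1) * ∑ i, q (f.symm (p, i)) * (1 / ε) ^ ((p : ℕ) + 1)
          = ∑ i, q (f.symm (p, i)) := by
        rw [← Finset.sum_mul, mul_comm, mul_assoc, ← mul_pow, one_div, inv_mul_cancel₀ h0.ne',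
          one_pow, mul_one]
      rw [h3] at h2
      refine le_trans (le_of_eq ?_) h2
      refine Finset.sum_congr rfl fun i _ => ?_
      simp only [pat, Equiv.apply_symm_apply]
      split_ifs <;> simp)
  choose! x hx hxp using hZmem
  let e : Fin Z.card ≃ Z := Z.equivFin.symm
  refine ⟨Z.card, fun k => w (e k), fun k => x (e k), fun k => hw0 _ (e k).2, ?_, ?_, ?_⟩
  · rw [Equiv.sum_comp e (fun z : Z => w z), Finset.sum_coe_sort Z w]
    exact hw1
  · intro k
    exact hx _ (e k).2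
  · intro i p hp
    by_cases hpJ : p ≤ J + 1
    · obtain ⟨p', rfl⟩ : ∃ p', p = p' + 1 := ⟨p - 1, by omega⟩
      have hp' : p' < J + 1 := by omega
      have h2 := hw2 (f.symm (⟨p', hp'⟩, i))
      have h3 : ∑ z ∈ Z, w z * z (f.symm (⟨p', hp'⟩, i)) = (1 / ε) ^ (p' + 1) *
          ∑ k ∈ Finset.univ.filter (fun k => ((p' + 1 : ℕ) : ℝ) * bd (t i) ε <
            |∑ j, a i j * (x (e k) j - x0 j)|), w (e k) := by
        rw [Finset.sum_filter, Finset.mul_sum,
          ← Finset.sum_coe_sort Z (fun z => w z * z (f.symm (⟨p', hp'⟩, i))),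
          ← Equiv.sum_comp e (fun z : Z => w z * (z : Fin ((J + 1) * m) → ℝ)
            (f.symm (⟨p', hp'⟩, i)))]
        refine Finset.sum_congr rfl fun k _ => ?_
        have h4 := hxp _ (e k).2
        have h5 : ((e k : Z) : Fin ((J + 1) * m) → ℝ) (f.symm (⟨p', hp'⟩, i))
            = if ((p' + 1 : ℕ) : ℝ) * bd (t i) ε < |∑ j, a i j * (x (e k) j - x0 j)|
              then (1 / ε) ^ (p' + 1) else 0 := by
          conv_lhs => rw [← h4]
          simp only [pat, Equiv.apply_symm_apply]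
        rw [h5]
        split_ifs
        · ring
        · simp
      rw [h3] at h2
      have h6 : 0 < (1 / ε) ^ (p' + 1) := by positivity
      have h7 : ε ^ (p' + 1) = 1 / (1 / ε) ^ (p' + 1) := by
        rw [one_div, one_div, inv_pow, inv_inv]
      rw [h7, le_div_iff₀ h6, mul_comm]
      exact h2
    · push Not at hpJ
      have h2 : (Finset.univ.filter (fun k : Fin Z.card => (p : ℝ) * bd (t i) ε <
          |∑ j, a i j * (x (e k) j - x0 j)|)) = ∅ := by
        rw [Finset.filter_eq_empty_iff]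
        intro k _
        push Not
        have h3 : |∑ j, a i j * (x (e k) j - x0 j)| ≤ 2 * n := by
          refine (Finset.abs_sum_le_sum_abs _ _).trans ?_
          have h4 : ∀ j ∈ (Finset.univ : Finset (Fin n)),
              |a i j * (x (e k) j - x0 j)| ≤ 2 := by
            intro j _
            rw [abs_mul]
            have h5 := (hx _ (e k).2).1 j
            have h6 : |x (e k) j - x0 j| ≤ 2 := by
              have h7 := abs_le.mp (hx0 j)
              rw [abs_le]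
              rcases h5 with h5 | h5 <;> rw [h5] <;> constructor <;> linarith [h7.1, h7.2]
            have h8 := a1 i j
            have h9 := abs_nonneg (x (e k) j - x0 j)
            nlinarith [abs_nonneg (a i j)]
          refine (Finset.sum_le_sum h4).trans (le_of_eq ?_)
          rw [Finset.sum_const, Finset.card_univ, Fintype.card_fin, nsmul_eq_mul]
          ring
        have h4 : ((2 * n : ℕ) : ℝ) ≤ (p : ℝ) := by
          exact_mod_cast (by omega : 2 * n ≤ p)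
        push_cast at h4
        have h5 : (0 : ℝ) ≤ p := Nat.cast_nonneg p
        have hbi := hbd i
        nlinarith
      rw [h2, Finset.sum_empty]
      positivity

end Pool.Agent.U939.KL
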