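import Pool.Agent.U939.KL.Rows
import Pool.Agent.N243.Levels

/-!
# Several systems of weights on the rows, with an own scale for every row
-/

namespace Pool.Agent.U939.KL

open Finset Real H167FK

open H167FK.Sys (alive)

open Pool.Agent.N243 (cst cst_nonneg low class_sum kap kap_le low_kap viol_card rkc rkc_card)

variable {m n : ℕ}

/-- **All levels.** -/
theorem levels (a bb : Fin m → Fin n → ℝ) (t : Fin m → ℝ) (ht : ∀ i, 1 ≤ t i)
    (a1 : ∀ i j, |a i j| ≤ 1) (abb : ∀ i j, a i j ^ 2 ≤ bb i j)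
    (bb0 : ∀ i j, a i j = 0 → bb i j = 0)
    (col : ∀ j, ∑ i, bb i j / t i ≤ 1) (L : ℝ) (hL : 1 ≤ L) (s : ℝ) (hs : 1 ≤ s)
    (hsL : 960 * L ≤ s ^ 4) (M : ℕ) (hM : 256 ≤ M) (hexp : 43 * (M : ℝ) * exp (-L) ≤ 1)
    (hρ : 344064 * s ^ 4 / (M : ℝ) ^ 2 < 1)
    (x0 : Fin n → ℝ) (hx0 : ∀ j, |x0 j| ≤ 1) (J : ℕ) (q : Fin (J + 1) → Fin m → ℝ)
    (hq0 : ∀ j i, 0 ≤ q j i) :
    ∃ x : Fin n → ℝ, (∀ j, |x j| = 1) ∧
      (∀ i, |∑ j, a i j * (x j - x0 j)| ≤ cst (t i) L * ((Nat.log M (min m n) : ℕ) + 2)) ∧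
      (∀ i K, LinK a bb t i K → |∑ j, a i j * (x j - x0 j)| ≤ 5 * cst (t i) L + 2 * K ∧
        |∑ j, a i j * (x j - x0 j)| ≤ 4 * K) ∧
      ∀ p : Fin (J + 1),
        ∑ i, (if cst (t i) L * (4 + 2 * ((p : ℕ) + 1 : ℕ)) < |∑ j, a i j * (x j - x0 j)|
          then q p i else 0) ≤
        2 * (344064 * s ^ 4 / (M : ℝ) ^ 2 * (256 / (M : ℝ)) ^ ((p : ℕ) + 1)) * ∑ i, q p i := by
  classical
  have hMR : (256 : ℝ) ≤ M := by exact_mod_cast hM
  have hM0 : (0 : ℝ) < M := by linarith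
  let cl : Fin (J + 1) → Fin m → ℕ := fun j => rkc M (q j)
  have hκ : ∀ k, ((low (kap cl) k).card : ℝ) ≤ (M : ℝ) ^ k := by
    intro k
    exact_mod_cast low_kap cl M (by omega) (fun j e => rkc_card M (by omega) (q j) e) k
  obtain ⟨x, X, hx1, hx2, hx3, hx4, hx5, hx6⟩ := process a bb t ht a1 abb bb0 col L hL s hs hsL M
    (by omega) hexp (kap cl) hκ x0 hx0
  refine ⟨x, hx1, hx2, hx3, fun p => ?_⟩
  set σ : Equiv.Perm (Fin m) := Tuple.sort (fun i => -q p i) with hσdef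
  have hσ : Antitone (q p ∘ σ) := by
    have h7 : Monotone ((fun i => -q p i) ∘ σ) := Tuple.monotone_sort _
    intro i j hij
    have := h7 hij
    simp only [Function.comp_apply] at this ⊢
    linarith
  set D : Finset (Fin m) := Finset.univ.filter
    (fun i => ∃ l ∈ X (σ i), 2 * ((p : ℕ) + 1) + 3 ≤ l) with hD
  set ρ : ℝ := 344064 * s ^ 4 / (M : ℝ) ^ 2 * (256 / (M : ℝ)) ^ ((p : ℕ) + 1) with hρdef
  have hρ0 : 0 ≤ ρ := by positivity
  have hρ1 : ρ < 1 := by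
    have h1 : (256 / (M : ℝ)) ^ ((p : ℕ) + 1) ≤ 1 := by
      apply pow_le_one₀ (by positivity)
      rw [div_le_one hM0]
      exact hMR
    have h2 : 0 ≤ 344064 * s ^ 4 / (M : ℝ) ^ 2 := by positivity
    calc ρ ≤ 344064 * s ^ 4 / (M : ℝ) ^ 2 * 1 := mul_le_mul_of_nonneg_left h1 h2
      _ < 1 := by rw [mul_one]; exact hρ
  have hcard : ∀ c, (((D ∩ B m M c).card : ℕ) : ℝ) ≤ ρ * (M : ℝ) ^ c := by
    intro c
    have h1 : (((D ∩ B m M c).map σ.toEmbedding).card : ℝ) ≤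
        344064 * s ^ 4 / (M : ℝ) ^ 2 * (256 / (M : ℝ)) ^ ((p : ℕ) + 1) * (M : ℝ) ^ c := by
      apply viol_card M (by omega) s (kap cl) X hx5 hx6
      intro i hi
      rw [Finset.mem_map] at hi
      obtain ⟨i', hi', rfl⟩ := hi
      rw [Finset.mem_inter] at hi'
      obtain ⟨h2, h3⟩ := hi'
      rw [hD, Finset.mem_filter] at h2
      unfold B at h3
      have h4 := (Finset.mem_filter.mp h3).2
      refine ⟨?_, h2.2⟩
      have h5 := kap_le cl p (σ i')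
      have h6 : cl p (σ i') = c := by
        simp only [cl, rkc]
        rw [← hσdef, Equiv.symm_apply_apply]
        exact h4
      rw [h6] at h5
      have h7 : σ.toEmbedding i' = σ i' := rfl
      rw [h7]
      omega
    rw [Finset.card_map] at h1
    exact h1
  have hmain := class_sum M (by omega) ρ hρ0 hρ1 D (q p ∘ σ) (fun i => hq0 p _) hσ hcard
  have hQ : ∑ i, (q p ∘ σ) i = ∑ i, q p i := by
    simp only [Function.comp_apply]
    exact Equiv.sum_comp σ (q p)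
  rw [hQ] at hmain
  refine le_trans ?_ hmain
  rw [← Equiv.sum_comp σ (fun i => if cst (t i) L * (4 + 2 * ((p : ℕ) + 1 : ℕ)) <
    |∑ j, a i j * (x j - x0 j)| then q p i else 0)]
  have h1 : ∑ i ∈ D, (q p ∘ σ) i = ∑ i, if i ∈ D then (q p ∘ σ) i else 0 := by
    rw [Finset.sum_ite_mem, Finset.univ_inter]
  rw [h1]
  refine Finset.sum_le_sum fun i _ => ?_
  by_cases hi : i ∈ D
  · rw [if_pos hi]
    split_ifs
    · exact le_rfl
    · exact hq0 p _
  · rw [if_neg hi]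
    have h2 : ∀ l ∈ X (σ i), l < 2 * ((p : ℕ) + 1) + 3 := by
      intro l hl
      by_contra hcon
      push Not at hcon
      exact hi (by rw [hD, Finset.mem_filter]; exact ⟨Finset.mem_univ _, l, hl, hcon⟩)
    have h3 := hx4 (σ i) (2 * ((p : ℕ) + 1)) h2
    rw [if_neg]
    push Not
    refine h3.trans (le_of_eq ?_)
    push_cast
    ring

end Pool.Agent.U939.KL
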