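import Pool.Agent.U939.KL.Exp

/-!
# Vectors of `ℓ_p` norm at most one, `1 ≤ p ≤ 2`
-/

set_option autoImplicit false

namespace Pool.Agent.U939.KL

open Finset Real

/-- `|v| ^ p` dominates the squares of small numbers. -/
theorem sq_le_rpow {p v : ℝ} (hp2 : p ≤ 2) (h1 : |v| ≤ 1) (h0 : v ≠ 0) :
    v ^ 2 ≤ |v| ^ p := by
  have h2 : 0 < |v| := abs_pos.mpr h0
  rw [← sq_abs, ← Real.rpow_natCast]
  exact Real.rpow_le_rpow_of_exponent_ge h2 h1 (by exact_mod_cast hp2)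

/-- Large entries: the mass is at most `θ ^ (1 - p)` times the sum of the `p`-th powers. -/
theorem abs_le_rpow {p v θ : ℝ} (hp1 : 1 ≤ p) (hθ : 0 < θ) (h : θ ≤ |v|) :
    |v| ≤ θ ^ (1 - p) * |v| ^ p := by
  have h2 : 0 < |v| := lt_of_lt_of_le hθ h
  have h3 : |v| = |v| ^ (1 - p) * |v| ^ p := by
    rw [← Real.rpow_add h2]
    simp
  calc |v| = |v| ^ (1 - p) * |v| ^ p := h3
    _ ≤ θ ^ (1 - p) * |v| ^ p := by
      apply mul_le_mul_of_nonneg_right _ (Real.rpow_nonneg h2.le _)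
      exact Real.rpow_le_rpow_of_nonpos hθ h (by linarith)

/-- Small entries: with `c = θ ^ (- (1 - p / 2))`. -/
theorem small_sq {p v θ : ℝ} (hp2 : p ≤ 2) (hθ : 0 < θ) (h : |v| ≤ θ) (h0 : v ≠ 0) :
    (θ ^ (-(1 - p / 2)) * v) ^ 2 ≤ |v| ^ p := by
  have h2 : 0 < |v| := abs_pos.mpr h0
  have h3 : (θ ^ (-(1 - p / 2))) ^ 2 = θ ^ (-(2 - p)) := by
    rw [← Real.rpow_natCast, ← Real.rpow_mul hθ.le]
    congr 1
    push_cast
    ring
  have h4 : |v| ^ 2 = |v| ^ (2 - p) * |v| ^ p := by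
    rw [← Real.rpow_add h2, ← Real.rpow_natCast]
    congr 1
    push_cast
    ring
  rw [mul_pow, h3, ← sq_abs v, h4, ← mul_assoc]
  have h5 : θ ^ (-(2 - p)) * |v| ^ (2 - p) ≤ 1 := by
    have h6 : |v| ^ (2 - p) ≤ θ ^ (2 - p) := Real.rpow_le_rpow h2.le h (by linarith)
    have h7 : θ ^ (-(2 - p)) * θ ^ (2 - p) = 1 := by
      rw [← Real.rpow_add hθ]
      simp
    rw [← h7]
    exact mul_le_mul_of_nonneg_left h6 (Real.rpow_nonneg hθ.le _)
  have h6 : 0 ≤ |v| ^ p := Real.rpow_nonneg h2.le _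
  nlinarith

/-- Small entries are at most one after scaling. -/
theorem small_abs {p v θ : ℝ} (hp1 : 1 ≤ p) (hθ : 0 < θ) (hθ1 : θ ≤ 1) (h : |v| ≤ θ) :
    |θ ^ (-(1 - p / 2)) * v| ≤ 1 := by
  have h1 : 0 ≤ θ ^ (-(1 - p / 2)) := Real.rpow_nonneg hθ.le _
  rw [abs_mul, abs_of_nonneg h1]
  calc θ ^ (-(1 - p / 2)) * |v| ≤ θ ^ (-(1 - p / 2)) * θ := mul_le_mul_of_nonneg_left h h1
    _ = θ ^ (p / 2) := by
      have h2 : θ ^ (-(1 - p / 2)) * θ = θ ^ (-(1 - p / 2)) * θ ^ (1 : ℝ) := by rw [Real.rpow_one]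
      rw [h2, ← Real.rpow_add hθ]
      congr 1
      ring
    _ ≤ 1 := Real.rpow_le_one hθ.le hθ1 (by linarith)

/-- The bound of the theorem. -/
noncomputable def lpb (p δ X : ℝ) : ℝ :=
  min (X ^ ((1 - 1 / p) / 2))
    (δ ^ (1 - p / 2) + δ * Real.sqrt X * (1 + Real.log (1 / δ)) ^ (3 / 2 : ℝ))

/-- The threshold. -/
noncomputable def thr (p X : ℝ) : ℝ := X ^ (-(1 / (2 * p)))

section facts

variable {p X : ℝ}

theorem thr_pos (hX : 1 ≤ X) : 0 < thr p X := Real.rpow_pos_of_pos (by linarith) _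

theorem thr_le_one (hp1 : 1 ≤ p) (hX : 1 ≤ X) : thr p X ≤ 1 := by
  unfold thr
  apply Real.rpow_le_one_of_one_le_of_nonpos hX
  have : 0 ≤ 1 / (2 * p) := by positivity
  linarith

/-- `θ ^ (1 - p) = X ^ ((1 - 1 / p) / 2)` -/
theorem thr_large (hp1 : 1 ≤ p) (hX : 1 ≤ X) : thr p X ^ (1 - p) = X ^ ((1 - 1 / p) / 2) := by
  unfold thr
  rw [← Real.rpow_mul (by linarith)]
  congr 1
  field_simp
  ring

/-- `θ ^ (1 - p / 2) X ^ (1 / 4) = X ^ ((1 - 1 / p) / 2)` -/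
theorem thr_small (hp1 : 1 ≤ p) (hX : 1 ≤ X) :
    thr p X ^ (1 - p / 2) * X ^ (1 / 4 : ℝ) = X ^ ((1 - 1 / p) / 2) := by
  unfold thr
  rw [← Real.rpow_mul (by linarith), ← Real.rpow_add (by linarith)]
  congr 1
  field_simp
  ring

/-- `θ √X = X ^ ((1 - 1 / p) / 2)` -/
theorem thr_sqrt (hp1 : 1 ≤ p) (hX : 1 ≤ X) :
    thr p X * Real.sqrt X = X ^ ((1 - 1 / p) / 2) := by
  unfold thr
  rw [Real.sqrt_eq_rpow, ← Real.rpow_add (by linarith)]
  congr 1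
  field_simp
  ring

theorem lpb_nonneg {δ : ℝ} (hX : 1 ≤ X) (hδ0 : 0 < δ) (hδ1 : δ ≤ 1) : 0 ≤ lpb p δ X := by
  have h1 : 0 ≤ Real.log (1 / δ) := Real.log_nonneg (by rw [le_div_iff₀ hδ0]; linarith)
  unfold lpb
  apply le_min <;> positivity

/-- The first case: the threshold is at most `δ`. -/
theorem lpb_of_large {δ : ℝ} (hp1 : 1 ≤ p) (hX : 1 ≤ X) (hδ0 : 0 < δ) (hδ1 : δ ≤ 1)
    (h : thr p X ≤ δ) : lpb p δ X = X ^ ((1 - 1 / p) / 2) := by
  have h1 : 0 ≤ Real.log (1 / δ) := Real.log_nonneg (by rw [le_div_iff₀ hδ0]; linarith)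
  unfold lpb
  apply min_eq_left
  rw [← thr_sqrt hp1 hX]
  have h2 : (1 : ℝ) ≤ (1 + Real.log (1 / δ)) ^ (3 / 2 : ℝ) := by
    apply Real.one_le_rpow _ (by norm_num)
    linarith
  have h3 : thr p X * Real.sqrt X ≤ δ * Real.sqrt X :=
    mul_le_mul_of_nonneg_right h (Real.sqrt_nonneg _)
  have h4 : 0 ≤ δ * Real.sqrt X := by positivity
  have h5 : 0 ≤ δ ^ (1 - p / 2) := Real.rpow_nonneg hδ0.le _
  nlinarith

/-- The cost in the second case. -/
theorem cost_small {δ : ℝ} (hp1 : 1 ≤ p) (hp2 : p ≤ 2) (hX : 1 ≤ X) (hδ0 : 0 < δ) (hδ1 : δ ≤ 1)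
    (h : δ ≤ thr p X) : δ * bnd (δ ^ (-p)) X ≤ 3000000 * lpb p δ X := by
  have hl : 0 ≤ Real.log (1 / δ) := Real.log_nonneg (by rw [le_div_iff₀ hδ0]; linarith)
  have hs : Real.sqrt (δ ^ (-p)) = δ ^ (-(p / 2)) := by
    rw [Real.sqrt_eq_rpow, ← Real.rpow_mul hδ0.le]
    congr 1
    ring
  have hδs : δ * δ ^ (-(p / 2)) = δ ^ (1 - p / 2) := by
    have h2 : δ * δ ^ (-(p / 2)) = δ ^ (1 : ℝ) * δ ^ (-(p / 2)) := by rw [Real.rpow_one]
    rw [h2, ← Real.rpow_add hδ0]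
    congr 1
  have hpos : 0 ≤ δ ^ (1 - p / 2) := Real.rpow_nonneg hδ0.le _
  unfold lpb
  rw [mul_min_of_nonneg _ _ (by norm_num : (0 : ℝ) ≤ 3000000)]
  apply le_min
  · calc δ * bnd (δ ^ (-p)) X ≤ δ * (42500 * Real.sqrt (δ ^ (-p)) * X ^ (1 / 4 : ℝ)) :=
          mul_le_mul_of_nonneg_left (min_le_right _ _) hδ0.le
      _ = 42500 * (δ ^ (1 - p / 2) * X ^ (1 / 4 : ℝ)) := by rw [hs, ← hδs]; ring
      _ ≤ 42500 * (thr p X ^ (1 - p / 2) * X ^ (1 / 4 : ℝ)) := by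
          apply mul_le_mul_of_nonneg_left _ (by norm_num)
          apply mul_le_mul_of_nonneg_right _ (Real.rpow_nonneg (by linarith) _)
          exact Real.rpow_le_rpow hδ0.le h (by linarith)
      _ = 42500 * X ^ ((1 - 1 / p) / 2) := by rw [thr_small hp1 hX]
      _ ≤ _ := by
          have : 0 ≤ X ^ ((1 - 1 / p) / 2) := Real.rpow_nonneg (by linarith) _
          linarith
  · have hlog : Real.log (δ ^ (-p)) = p * Real.log (1 / δ) := by
      rw [Real.log_rpow hδ0, one_div, Real.log_inv]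
      ring
    have h3 : (1 + Real.log (δ ^ (-p))) ^ (3 / 2 : ℝ) ≤
        3 * (1 + Real.log (1 / δ)) ^ (3 / 2 : ℝ) := by
      have h4 : 1 + Real.log (δ ^ (-p)) ≤ 2 * (1 + Real.log (1 / δ)) := by
        rw [hlog]; nlinarith
      calc (1 + Real.log (δ ^ (-p))) ^ (3 / 2 : ℝ) ≤ (2 * (1 + Real.log (1 / δ))) ^ (3 / 2 : ℝ) := by
            apply Real.rpow_le_rpow _ h4 (by norm_num)
            rw [hlog]; positivity
        _ = 2 ^ (3 / 2 : ℝ) * (1 + Real.log (1 / δ)) ^ (3 / 2 : ℝ) :=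
            Real.mul_rpow (by norm_num) (by linarith)
        _ ≤ 3 * (1 + Real.log (1 / δ)) ^ (3 / 2 : ℝ) := by
            gcongr
            have h5 : (2 : ℝ) ^ (3 / 2 : ℝ) = 2 * Real.sqrt 2 := by
              rw [show (3 / 2 : ℝ) = 1 + 1 / 2 by norm_num, Real.rpow_add (by norm_num),
                Real.rpow_one, ← Real.sqrt_eq_rpow]
            have h6 : Real.sqrt 2 ≤ 3 / 2 := by
              rw [Real.sqrt_le_left (by norm_num)]
              norm_num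
            linarith
    have h7 : 0 ≤ δ * Real.sqrt X := by positivity
    calc δ * bnd (δ ^ (-p)) X ≤ δ * (3120 * Real.sqrt (δ ^ (-p))
          + 832000 * Real.sqrt X * (1 + Real.log (δ ^ (-p))) ^ (3 / 2 : ℝ)) :=
          mul_le_mul_of_nonneg_left (min_le_left _ _) hδ0.le
      _ = 3120 * δ ^ (1 - p / 2)
          + 832000 * ((δ * Real.sqrt X) * (1 + Real.log (δ ^ (-p))) ^ (3 / 2 : ℝ)) := by
          rw [hs, ← hδs]; ring
      _ ≤ 3120 * δ ^ (1 - p / 2)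
          + 832000 * ((δ * Real.sqrt X) * (3 * (1 + Real.log (1 / δ)) ^ (3 / 2 : ℝ))) := by
          have := mul_le_mul_of_nonneg_left h3 h7
          linarith
      _ ≤ _ := by
          have : 0 ≤ δ * Real.sqrt X * (1 + Real.log (1 / δ)) ^ (3 / 2 : ℝ) := by positivity
          linarith

end facts

end Pool.Agent.U939.KL
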